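import Pool.Agent.Helper62.Phi4.KillVal2
import Pool.Agent.Helper88.PhiT

set_option autoImplicit false

/-! Nonexistence of breather-solutions outside the exceptional periods. -/

namespace Phi4

open Real
open Pool.Agent.Helper35.Phi4 (aa aa_add Kill kill_three)
open Pool.Agent.Helper62.Phi4 (kill_D kill_val3 kill_val2)

/-- The periods that are not covered: `T^2 = (2 π^2 / 3) (4 n^2 - m^2)` with integers `1 ≤ m < n`
such that `n` and `m` are divisible by the same power of 3, `m` is divisible by the highest power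
of 2 which divides `n`, `4 n^2 - m^2` is 3 mod 9 or 0 mod 27 or `5 m^2 - 4 n^2` is a square, and
the pair test fails for some set of frequencies with maximum `n`; they are at least
`2 √14 π`. -/
def Exceptional (T : ℝ) : Prop :=
  ∃ m n : ℕ, 1 ≤ m ∧ m < n ∧ T ^ 2 = 2 * π ^ 2 / 3 * (4 * (n : ℝ) ^ 2 - (m : ℝ) ^ 2) ∧
    2 * √14 * π ≤ T ∧
    padicValNat 3 n = padicValNat 3 m ∧ padicValNat 2 n ≤ padicValNat 2 m ∧
    ((4 * n ^ 2 - m ^ 2) % 9 = 3 ∨ (4 * n ^ 2 - m ^ 2) % 27 = 0 ∨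
      ∃ l : ℕ, 5 * m ^ 2 = 4 * n ^ 2 + l ^ 2) ∧
    ∃ X : Finset ℕ, n ∈ X ∧ X ⊆ Finset.Icc 1 n ∧ ¬ PairTest (4 * n ^ 2 - m ^ 2) n X

theorem small_pairs {N m n : ℕ} (hm : 1 ≤ m) (hmn : m < n) (hN : N + m ^ 2 = 4 * n ^ 2)
    (h3 : padicValNat 3 n = padicValNat 3 m) (h2 : padicValNat 2 n ≤ padicValNat 2 m) :
    84 ≤ N := by
  by_contra hlt
  push Not at hlt
  have hm2 : m ^ 2 < n ^ 2 := Nat.pow_lt_pow_left hmn (by norm_num)
  have hn : n ≤ 5 := by
    by_contra hc
    push Not at hc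
    have : 6 ^ 2 ≤ n ^ 2 := Nat.pow_le_pow_left hc 2
    omega
  have v21 : padicValNat 2 1 = 0 := by simp
  have v23 : padicValNat 2 3 = 0 := padicValNat.eq_zero_of_not_dvd (by norm_num)
  have v22 : padicValNat 2 2 = 1 := by
    have _ : Fact (Nat.Prime 2) := ⟨Nat.prime_two⟩
    exact padicValNat_self
  have v24 : padicValNat 2 4 = 2 := by
    have _ : Fact (Nat.Prime 2) := ⟨Nat.prime_two⟩
    rw [show (4 : ℕ) = 2 ^ 2 by norm_num, padicValNat.prime_pow]
  have v31 : padicValNat 3 1 = 0 := by simp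
  have v32 : padicValNat 3 2 = 0 := padicValNat.eq_zero_of_not_dvd (by norm_num)
  have v33 : padicValNat 3 3 = 1 := by
    have _ : Fact (Nat.Prime 3) := ⟨Nat.prime_three⟩
    exact padicValNat_self
  have v35 : padicValNat 3 5 = 0 := padicValNat.eq_zero_of_not_dvd (by norm_num)
  interval_cases n <;> interval_cases m <;> omega

theorem breathers_of_not_exceptional {T : ℝ} (hT : 0 < T) (hex : ¬ Exceptional T) :
    Breathers T 1 = {fun _ _ => 1} ∧ Breathers T (-1) = {fun _ _ => -1} := by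
  apply breathers_of_kill hT
  intro N m n h1 h2 h3 h4 X h5 h6
  by_contra hk
  apply hex
  have hX : ∀ j ∈ X, j ≤ n := fun j hj => (h6 j hj).2
  have hNe : 4 * n ^ 2 - m ^ 2 = N := by omega
  have hNR : 4 * (n : ℝ) ^ 2 - (m : ℝ) ^ 2 = N := by
    have : ((N + m ^ 2 : ℕ) : ℝ) = ((4 * n ^ 2 : ℕ) : ℝ) := by rw [h3]
    push_cast at this
    linarith
  have e3 : padicValNat 3 n = padicValNat 3 m := by
    by_contra hc
    exact hk (kill_val3 h1 h2 h3 hc h5 hX)
  have e2 : padicValNat 2 n ≤ padicValNat 2 m := by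
    by_contra hc
    push Not at hc
    exact hk (kill_val2 h1 h2 h3 hc h5 hX)
  have h84 := small_pairs h1 h2 h3 e3 e2
  refine ⟨m, n, h1, h2, by rw [hNR]; exact h4, ?_, e3, e2, ?_, X, h5, ?_, ?_⟩
  · have hpi := Real.pi_pos
    have h7 : (2 * √14 * π) ^ 2 ≤ T ^ 2 := by
      have h8 : (84 : ℝ) ≤ N := by exact_mod_cast h84
      have h9 : √(14 : ℝ) ^ 2 = 14 := Real.sq_sqrt (by norm_num)
      rw [h4, mul_pow, mul_pow, h9]
      have : 0 ≤ π ^ 2 * ((N : ℝ) - 84) := mul_nonneg (by positivity) (by linarith)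
      linarith
    exact (abs_le_of_sq_le_sq' h7 hT.le).2
  · rw [hNe]
    have hd : 3 ∣ N := by
      by_contra hc
      exact hk (kill_three h2 h3 hc h5 hX)
    obtain ⟨M, rfl⟩ := hd
    by_contra hc
    push Not at hc
    obtain ⟨c1, c2, c3⟩ := hc
    exact hk (kill_D h2 h3 rfl (by omega) (by omega) c3 h5 hX)
  · exact fun j hj => Finset.mem_Icc.2 (h6 j hj)
  · rw [hNe, pairTest_iff h2 h3 h5 hX]
    exact hk

end Phi4
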