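import Pool.Agent.Helper35.Phi4.Three

set_option autoImplicit false

/-! Kill for `M % 3 = 2` and `v_3 (M) = 1` (`N = 3 M`), unless `5 m^2 - 4 n^2` is a square. -/

namespace Pool.Agent.Helper62.Phi4

open Real Pool.Agent.Helper35.Phi4

/-- the class argument at the prime 3 -/
theorem kill_class {N n m e : ℕ} {X : Finset ℕ} (he : 0 < e) (hn : 3 * n ^ 2 < N)
    (hN : N + m ^ 2 = 4 * n ^ 2)
    (hnX : n ∈ X) (hX : ∀ j ∈ X, j ≤ n)
    (hu : ∀ j, j ≤ n → IsSquare (aa N j * aa N n) → ∃ h, gg N n j = e * h ∧ ¬ 3 ∣ h)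
    (hfree : ∀ c l : ℕ, ((e * (3 * c) : ℕ) : ℤ) ^ 2 ≠ (aa N n : ℤ) * ((N : ℤ) - 3 * (l : ℤ) ^ 2))
    (h4 : ∀ l : ℕ, 5 * m ^ 2 ≠ 4 * n ^ 2 + l ^ 2) : Kill N n X := by
  have hj3 : ∀ j ∈ X, 3 * j ^ 2 < N := by
    intro j hj
    have : j ^ 2 ≤ n ^ 2 := Nat.pow_le_pow_left (hX j hj) 2
    omega
  set hh : ℕ → ℕ := fun j => gg N n j / e with hhdef
  have hge : ∀ j ∈ X, IsSquare (aa N j * aa N n) → gg N n j = e * hh j ∧ ¬ 3 ∣ hh j := by
    intro j hj hs
    obtain ⟨h, h1, h2⟩ := hu j (hX j hj) hs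
    have h3 : hh j = h := by
      simp only [hhdef, h1]
      exact Nat.mul_div_cancel_left h he
    rw [h3]
    exact ⟨h1, h2⟩
  have hnn := hge n hnX (sq_self N n)
  rw [gg_self] at hnn
  obtain ⟨hnn1, hnn2⟩ := hnn
  have hann : 0 < aa N n := aa_pos hn
  classical
  set M : Finset ℕ := X.filter (fun j => IsSquare (aa N j * aa N n) ∧
    hh j % 3 ≠ hh n % 3 ∧ gg N n j < 3 * aa N n) with hM
  have hmul3 : ∀ a b : ℕ, e * a = e * b → a = b := fun a b h => Nat.eq_of_mul_eq_mul_left he h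
  by_cases hne : M.Nonempty
  · left
    obtain ⟨y, hy, hmin⟩ := Finset.exists_min_image M (gg N n) hne
    obtain ⟨hyX, hys, hyc, hylt⟩ := Finset.mem_filter.1 hy
    have hr := rate_pos hn
    have hrr : √(aa N n : ℝ) * √(aa N n : ℝ) = (aa N n : ℝ) :=
      Real.mul_self_sqrt (Nat.cast_nonneg _)
    have hsum : (√(aa N n : ℝ) + √(aa N y : ℝ)) * √(aa N n : ℝ)
        = ((aa N n + gg N n y : ℕ) : ℝ) := by
      rw [add_mul, hrr, gg_real hys]; push_cast; ring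
    obtain ⟨hy1, hy2⟩ := hge y hyX hys
    have hdiv : (hh n + hh y) % 3 = 0 := by omega
    refine ⟨n, hnX, y, hyX, ?_, ?_, ?_⟩
    · have h1 : √(aa N y : ℝ) * √(aa N n : ℝ) < 3 * √(aa N n : ℝ) * √(aa N n : ℝ) := by
        rw [gg_real hys, mul_assoc, hrr]
        exact_mod_cast hylt
      have := lt_of_mul_lt_mul_right h1 hr.le
      linarith
    · intro l hl
      have h1 := level_int hsum hl
      obtain ⟨c, hc⟩ := Nat.dvd_of_mod_eq_zero hdiv
      apply hfree c l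
      rw [← h1, ← hc, Nat.mul_add, ← hnn1, ← hy1]
    · -- uniqueness of the pair
      have key : ∀ i ∈ X, ∀ j ∈ X, IsSquare (aa N i * aa N n) → IsSquare (aa N j * aa N n) →
          gg N n i + gg N n j = aa N n + gg N n y → hh j % 3 ≠ hh n % 3 →
          i = n ∧ j = y := by
        intro i hi j hj hsi hsj hs hc
        have h1 := gg_ge (hX i hi) hsi
        have h2 : j ∈ M := by
          refine Finset.mem_filter.2 ⟨hj, hsj, hc, by omega⟩
        have h4 := hmin j h2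
        have h5 : gg N n j = gg N n y := by omega
        have h6 : gg N n i = gg N n n := by rw [gg_self]; omega
        exact ⟨gg_inj hn (hj3 i hi) hn hsi (sq_self N n) h6,
          gg_inj hn (hj3 j hj) (hj3 y hyX) hsj hys h5⟩
      intro i hi j hj hij
      have hG : 0 < aa N n + gg N n y := by omega
      have h1 : (√(aa N i : ℝ) + √(aa N j : ℝ)) * √(aa N n : ℝ)
          = ((aa N n + gg N n y : ℕ) : ℝ) := by rw [hij, hsum]
      obtain ⟨hsi, hsj, hs⟩ := sum_sq hG h1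
      obtain ⟨hi1, hi2⟩ := hge i hi hsi
      obtain ⟨hj1, hj2⟩ := hge j hj hsj
      have hss : hh i + hh j = hh n + hh y := by
        apply hmul3
        rw [Nat.mul_add, Nat.mul_add, ← hi1, ← hj1, ← hnn1, ← hy1]
        exact hs
      by_cases hc : hh j % 3 = hh n % 3
      · right
        have hc2 : hh i % 3 ≠ hh n % 3 := by omega
        have := key j hj i hi hsj hsi (by omega) hc2
        exact ⟨this.2, this.1⟩
      · left
        exact key i hi j hj hsi hsj hs hc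
  · right
    have hMe : ∀ j ∈ X, IsSquare (aa N j * aa N n) → gg N n j < 3 * aa N n →
        hh j % 3 = hh n % 3 := by
      intro j hj hs hlt
      by_contra hc
      exact hne ⟨j, Finset.mem_filter.2 ⟨hj, hs, hc, hlt⟩⟩
    have haa := aa_add hn
    have hrr : √(aa N n : ℝ) ^ 2 = (aa N n : ℝ) := Real.sq_sqrt (Nat.cast_nonneg _)
    have hthree : ∀ l : ℕ, (3 * √(aa N n : ℝ)) ^ 2 ≠ (N : ℝ) - 3 * (l : ℝ) ^ 2 := by
      intro l hl
      have h0 : (3 * √(aa N n : ℝ)) * √(aa N n : ℝ) = ((3 * aa N n : ℕ) : ℝ) := by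
        rw [mul_assoc, ← pow_two, hrr]; push_cast; ring
      have h1 := level_int h0 hl
      apply hfree (hh n) l
      rw [← h1]
      have : e * (3 * hh n) = 3 * aa N n := by rw [hnn1]; ring
      rw [this]
    refine ⟨?_, hthree, ?_⟩
    · intro l hl
      have h1 : (16 : ℝ) * (aa N n : ℝ) + 3 * (l : ℝ) ^ 2 = (N : ℝ) := by
        rw [mul_pow, hrr] at hl; linarith
      have h2 : 16 * aa N n + 3 * l ^ 2 = N := by exact_mod_cast h1
      apply h4 l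
      omega
    · intro i hi j hj hij
      have h1 : (√(aa N i : ℝ) + √(aa N j : ℝ)) * √(aa N n : ℝ) = ((4 * aa N n : ℕ) : ℝ) := by
        rw [hij, mul_assoc, ← pow_two, hrr]; push_cast; ring
      obtain ⟨hsi, hsj, hs⟩ := sum_sq (by omega) h1
      have hgi := gg_ge (hX i hi) hsi
      have hgj := gg_ge (hX j hj) hsj
      obtain ⟨hi1, hi2⟩ := hge i hi hsi
      obtain ⟨hj1, hj2⟩ := hge j hj hsj
      have hss : hh i + hh j = 4 * hh n := by
        apply hmul3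
        rw [Nat.mul_add, ← hi1, ← hj1, hs, hnn1]
        ring
      -- a pair with an entry at 3 a_n would give a free level 3
      have hno3 : ∀ k ∈ X, IsSquare (aa N k * aa N n) → hh k ≠ 3 * hh n := by
        intro k hk hks h
        have := (hge k hk hks).2
        apply this
        rw [h]
        exact Dvd.intro _ rfl
      have hi3 : gg N n i < 3 * aa N n := by
        rcases Nat.lt_or_ge (gg N n i) (3 * aa N n) with h | h
        · exact h
        · exfalso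
          have h5 : gg N n i = 3 * aa N n := by omega
          apply hno3 i hi hsi
          apply hmul3
          rw [← hi1, h5, hnn1]; ring
      have hj3' : gg N n j < 3 * aa N n := by
        rcases Nat.lt_or_ge (gg N n j) (3 * aa N n) with h | h
        · exact h
        · exfalso
          have h5 : gg N n j = 3 * aa N n := by omega
          apply hno3 j hj hsj
          apply hmul3
          rw [← hj1, h5, hnn1]; ring
      have c1 := hMe i hi hsi hi3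
      have c2 := hMe j hj hsj hj3'
      omega

/-- `M = N / 3` with `M % 3 = 2` -/
theorem kill_two {N n m M : ℕ} {X : Finset ℕ} (hmn : m < n) (hN : N + m ^ 2 = 4 * n ^ 2)
    (hM : N = 3 * M) (hM2 : M % 3 = 2) (h4 : ∀ l : ℕ, 5 * m ^ 2 ≠ 4 * n ^ 2 + l ^ 2)
    (hnX : n ∈ X) (hX : ∀ j ∈ X, j ≤ n) : Kill N n X := by
  have hm2 : m ^ 2 < n ^ 2 := Nat.pow_lt_pow_left hmn (by norm_num)
  have hn : 3 * n ^ 2 < N := by omega
  have hn3 : n ^ 2 % 3 = 1 := by
    rcases (by omega : n % 3 = 0 ∨ n % 3 = 1 ∨ n % 3 = 2) with h | h | h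
    · exfalso
      obtain ⟨n', rfl⟩ := Nat.dvd_of_mod_eq_zero h
      have h3 : 3 ∣ m := by
        have : 3 ∣ m ^ 2 := by
          have h1 : m ^ 2 = 3 * (12 * n' ^ 2 - M) := by
            have : (3 * n') ^ 2 = 9 * n' ^ 2 := by ring
            omega
          exact ⟨_, h1⟩
        exact Nat.prime_three.dvd_of_dvd_pow this
      obtain ⟨m', rfl⟩ := h3
      have h1 : (3 * n') ^ 2 = 9 * n' ^ 2 := by ring
      have h2 : (3 * m') ^ 2 = 9 * m' ^ 2 := by ring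
      omega
    · simp [Nat.pow_mod, h]
    · simp [Nat.pow_mod, h]
  have haj : ∀ j, j ≤ n → aa N j = 3 * (M - j ^ 2) ∧ j ^ 2 < M := by
    intro j hj
    have : j ^ 2 ≤ n ^ 2 := Nat.pow_le_pow_left hj 2
    unfold aa
    omega
  refine kill_class (e := 3) (by norm_num) hn hN hnX hX ?_ ?_ h4
  · intro j hj hs
    obtain ⟨h1, h2⟩ := haj j hj
    obtain ⟨h3, h5⟩ := haj n le_rfl
    have hg := gg_sq hs
    have h6 : 3 ∣ gg N n j := by
      have : 3 ∣ gg N n j * gg N n j := by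
        rw [hg, h1, h3]
        exact Dvd.intro _ (by ring : 3 * ((M - j ^ 2) * (3 * (M - n ^ 2)))
          = 3 * (M - j ^ 2) * (3 * (M - n ^ 2)))
      rcases (Nat.prime_three.dvd_mul).1 this with h | h <;> exact h
    obtain ⟨h, hh⟩ := h6
    refine ⟨h, hh, ?_⟩
    intro h7
    obtain ⟨c, rfl⟩ := h7
    rw [hh, h1, h3] at hg
    have h8 : (M - j ^ 2) * (M - n ^ 2) = 9 * (c * c) := by nlinarith
    have h9 : 3 ∣ (M - j ^ 2) * (M - n ^ 2) := ⟨3 * (c * c), by rw [h8]; ring⟩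
    have hj3 : j ^ 2 % 3 = 0 ∨ j ^ 2 % 3 = 1 := by
      rcases (by omega : j % 3 = 0 ∨ j % 3 = 1 ∨ j % 3 = 2) with h | h | h <;>
        simp [Nat.pow_mod, h]
    rcases (Nat.prime_three.dvd_mul).1 h9 with h | h
    · omega
    · omega
  · intro c l hc
    obtain ⟨h3, h5⟩ := haj n le_rfl
    have h6 : ((aa N n : ℕ) : ℤ) = 3 * ((M : ℤ) - (n : ℤ) ^ 2) := by
      rw [h3, Nat.cast_mul, Nat.cast_sub h5.le]; push_cast; ring
    rw [h6, hM] at hc
    push_cast at hc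
    have h7 : 9 * (c : ℤ) ^ 2 = ((M : ℤ) - (n : ℤ) ^ 2) * ((M : ℤ) - (l : ℤ) ^ 2) := by
      linarith [hc]
    have h8 : (3 : ℤ) ∣ ((M : ℤ) - (n : ℤ) ^ 2) * ((M : ℤ) - (l : ℤ) ^ 2) :=
      ⟨3 * (c : ℤ) ^ 2, by rw [← h7]; ring⟩
    have hl3 : l ^ 2 % 3 = 0 ∨ l ^ 2 % 3 = 1 := by
      rcases (by omega : l % 3 = 0 ∨ l % 3 = 1 ∨ l % 3 = 2) with h | h | h <;>
        simp [Nat.pow_mod, h]
    have hn3' : ((n : ℤ) ^ 2) % 3 = 1 := by exact_mod_cast hn3
    have hl3' : ((l : ℤ) ^ 2) % 3 = 0 ∨ ((l : ℤ) ^ 2) % 3 = 1 := by exact_mod_cast hl3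
    have hM' : (M : ℤ) % 3 = 2 := by exact_mod_cast hM2
    have h10 : (3 : ℤ) ∣ ((M : ℤ) - (n : ℤ) ^ 2) ∨ (3 : ℤ) ∣ ((M : ℤ) - (l : ℤ) ^ 2) :=
      Int.Prime.dvd_mul' (by norm_num) h8
    rcases h10 with h | h <;> omega

/-- `M = N / 3` with `M` divisible by 3 exactly once, `n` not divisible by 3 -/
theorem kill_one_a {N n m M : ℕ} {X : Finset ℕ} (hmn : m < n) (hN : N + m ^ 2 = 4 * n ^ 2)
    (hM : N = 3 * M) (hM2 : M % 9 = 3 ∨ M % 9 = 6) (hn3 : n ^ 2 % 3 = 1)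
    (h4 : ∀ l : ℕ, 5 * m ^ 2 ≠ 4 * n ^ 2 + l ^ 2)
    (hnX : n ∈ X) (hX : ∀ j ∈ X, j ≤ n) : Kill N n X := by
  have hm2 : m ^ 2 < n ^ 2 := Nat.pow_lt_pow_left hmn (by norm_num)
  have hn : 3 * n ^ 2 < N := by omega
  have haj : ∀ j, j ≤ n → aa N j = 3 * (M - j ^ 2) ∧ j ^ 2 < M := by
    intro j hj
    have : j ^ 2 ≤ n ^ 2 := Nat.pow_le_pow_left hj 2
    unfold aa
    omega
  -- 9 divides (M - n^2)(M - l^2) is impossible
  have key : ∀ l : ℕ, ¬ (9 : ℤ) ∣ ((M : ℤ) - (n : ℤ) ^ 2) * ((M : ℤ) - (l : ℤ) ^ 2) := by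
    intro l h
    have hn3' : ((n : ℤ) ^ 2) % 3 = 1 := by exact_mod_cast hn3
    have hM' : (M : ℤ) % 9 = 3 ∨ (M : ℤ) % 9 = 6 := by exact_mod_cast hM2
    have hcop : IsCoprime (9 : ℤ) ((M : ℤ) - (n : ℤ) ^ 2) := by
      have : IsCoprime (3 : ℤ) ((M : ℤ) - (n : ℤ) ^ 2) := by
        rw [(Int.prime_three).coprime_iff_not_dvd]
        omega
      have h2 := this.pow_left (m := 2)
      norm_num at h2
      exact h2
    have h1 := hcop.dvd_of_dvd_mul_left h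
    rcases (by omega : l % 3 = 0 ∨ l % 3 = 1 ∨ l % 3 = 2) with h5 | h5 | h5
    · obtain ⟨l', rfl⟩ := Nat.dvd_of_mod_eq_zero h5
      push_cast at h1
      have : ((3 : ℤ) * l') ^ 2 = 9 * (l' : ℤ) ^ 2 := by ring
      omega
    · have : l ^ 2 % 3 = 1 := by simp [Nat.pow_mod, h5]
      have : ((l : ℤ) ^ 2) % 3 = 1 := by exact_mod_cast this
      omega
    · have : l ^ 2 % 3 = 1 := by simp [Nat.pow_mod, h5]
      have : ((l : ℤ) ^ 2) % 3 = 1 := by exact_mod_cast this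
      omega
  refine kill_class (e := 3) (by norm_num) hn hN hnX hX ?_ ?_ h4
  · intro j hj hs
    obtain ⟨h1, h2⟩ := haj j hj
    obtain ⟨h3, h5⟩ := haj n le_rfl
    have hg := gg_sq hs
    have h6 : 3 ∣ gg N n j := by
      have : 3 ∣ gg N n j * gg N n j := by
        rw [hg, h1, h3]
        exact Dvd.intro _ (by ring : 3 * ((M - j ^ 2) * (3 * (M - n ^ 2)))
          = 3 * (M - j ^ 2) * (3 * (M - n ^ 2)))
      rcases (Nat.prime_three.dvd_mul).1 this with h | h <;> exact h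
    obtain ⟨h, hh⟩ := h6
    refine ⟨h, hh, ?_⟩
    intro h7
    obtain ⟨c, rfl⟩ := h7
    rw [hh, h1, h3] at hg
    have h8 : (M - j ^ 2) * (M - n ^ 2) = 9 * (c * c) := by nlinarith
    apply key j
    refine ⟨(c : ℤ) * c, ?_⟩
    have h9 : (((M - j ^ 2) * (M - n ^ 2) : ℕ) : ℤ) = ((9 * (c * c) : ℕ) : ℤ) := by rw [h8]
    rw [Nat.cast_mul, Nat.cast_sub h2.le, Nat.cast_sub h5.le] at h9
    push_cast at h9
    linarith
  · intro c l hc
    obtain ⟨h3, h5⟩ := haj n le_rfl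
    have h6 : ((aa N n : ℕ) : ℤ) = 3 * ((M : ℤ) - (n : ℤ) ^ 2) := by
      rw [h3, Nat.cast_mul, Nat.cast_sub h5.le]; push_cast; ring
    rw [h6, hM] at hc
    push_cast at hc
    apply key l
    exact ⟨(c : ℤ) ^ 2, by linarith [hc]⟩

/-- `M = N / 3` with `M` divisible by 3 exactly once, `n` divisible by 3 -/
theorem kill_one_b {N n m M : ℕ} {X : Finset ℕ} (hmn : m < n) (hN : N + m ^ 2 = 4 * n ^ 2)
    (hM : N = 3 * M) (hM2 : M % 9 = 3 ∨ M % 9 = 6) (hn3 : 3 ∣ n)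
    (h4 : ∀ l : ℕ, 5 * m ^ 2 ≠ 4 * n ^ 2 + l ^ 2)
    (hnX : n ∈ X) (hX : ∀ j ∈ X, j ≤ n) : Kill N n X := by
  have hm2 : m ^ 2 < n ^ 2 := Nat.pow_lt_pow_left hmn (by norm_num)
  have hn : 3 * n ^ 2 < N := by omega
  obtain ⟨M', hM'⟩ : 3 ∣ M := by omega
  have hM3 : M' % 3 = 1 ∨ M' % 3 = 2 := by omega
  have haj : ∀ j, j ≤ n → aa N j = 3 * (M - j ^ 2) ∧ j ^ 2 < M := by
    intro j hj
    have : j ^ 2 ≤ n ^ 2 := Nat.pow_le_pow_left hj 2
    unfold aa
    omega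
  obtain ⟨n', rfl⟩ := hn3
  have hnn : (3 * n') ^ 2 = 9 * n' ^ 2 := by ring
  obtain ⟨h3, h5⟩ := haj (3 * n') le_rfl
  have h3' : aa N (3 * n') = 9 * (M' - 3 * n' ^ 2) := by rw [h3]; omega
  have h5' : 3 * n' ^ 2 < M' := by omega
  refine kill_class (e := 9) (by norm_num) hn hN hnX hX ?_ ?_ h4
  · intro j hj hs
    obtain ⟨h1, h2⟩ := haj j hj
    have hg := gg_sq hs
    have hj0 : 3 ∣ j := by
      by_contra hc
      have hj1 : j ^ 2 % 3 = 1 := by
        rcases (by omega : j % 3 = 0 ∨ j % 3 = 1 ∨ j % 3 = 2) with h | h | h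
        · omega
        · simp [Nat.pow_mod, h]
        · simp [Nat.pow_mod, h]
      -- 27 divides the square, hence 81, hence 3 divides M - j^2 or M' - 3 n'^2
      rw [h1, h3'] at hg
      have hp : 3 ∣ gg N (3 * n') j := by
        have : 3 ∣ gg N (3 * n') j * gg N (3 * n') j := by
          rw [hg]
          exact ⟨(M - j ^ 2) * (9 * (M' - 3 * n' ^ 2)), by ring⟩
        rcases (Nat.prime_three.dvd_mul).1 this with h | h <;> exact h
      obtain ⟨g1, hg1⟩ := hp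
      rw [hg1] at hg
      have hg2 : g1 * g1 = 3 * ((M - j ^ 2) * (M' - 3 * n' ^ 2)) := by nlinarith
      have hp2 : 3 ∣ g1 := by
        have : 3 ∣ g1 * g1 := ⟨_, hg2⟩
        rcases (Nat.prime_three.dvd_mul).1 this with h | h <;> exact h
      obtain ⟨g2, hg3⟩ := hp2
      rw [hg3] at hg2
      have hg4 : 3 * (g2 * g2) = (M - j ^ 2) * (M' - 3 * n' ^ 2) := by nlinarith
      have : 3 ∣ (M - j ^ 2) * (M' - 3 * n' ^ 2) := ⟨_, hg4.symm⟩
      rcases (Nat.prime_three.dvd_mul).1 this with h | h <;> omega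
    obtain ⟨j', rfl⟩ := hj0
    have hjj : (3 * j') ^ 2 = 9 * j' ^ 2 := by ring
    have h1' : aa N (3 * j') = 9 * (M' - 3 * j' ^ 2) := by rw [h1]; omega
    have h2' : 3 * j' ^ 2 < M' := by omega
    rw [h1', h3'] at hg
    have hp : 3 ∣ gg N (3 * n') (3 * j') := by
      have : 3 ∣ gg N (3 * n') (3 * j') * gg N (3 * n') (3 * j') := by
        rw [hg]
        exact ⟨3 * (M' - 3 * j' ^ 2) * (9 * (M' - 3 * n' ^ 2)), by ring⟩
      rcases (Nat.prime_three.dvd_mul).1 this with h | h <;> exact h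
    obtain ⟨g1, hg1⟩ := hp
    rw [hg1] at hg
    have hg2 : g1 * g1 = 9 * ((M' - 3 * j' ^ 2) * (M' - 3 * n' ^ 2)) := by nlinarith
    have hp2 : 3 ∣ g1 := by
      have : 3 ∣ g1 * g1 := ⟨3 * ((M' - 3 * j' ^ 2) * (M' - 3 * n' ^ 2)), by rw [hg2]; ring⟩
      rcases (Nat.prime_three.dvd_mul).1 this with h | h <;> exact h
    obtain ⟨g2, hg3⟩ := hp2
    rw [hg3] at hg2
    have hg4 : g2 * g2 = (M' - 3 * j' ^ 2) * (M' - 3 * n' ^ 2) := by nlinarith
    refine ⟨g2, by rw [hg1, hg3]; ring, ?_⟩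
    intro h7
    have : 3 ∣ (M' - 3 * j' ^ 2) * (M' - 3 * n' ^ 2) := by
      rw [← hg4]
      exact Dvd.dvd.mul_left h7 _
    rcases (Nat.prime_three.dvd_mul).1 this with h | h <;> omega
  · intro c l hc
    have h6 : ((aa N (3 * n') : ℕ) : ℤ) = 9 * ((M' : ℤ) - 3 * (n' : ℤ) ^ 2) := by
      rw [h3', Nat.cast_mul, Nat.cast_sub h5'.le]; push_cast; ring
    rw [h6, hM, hM'] at hc
    push_cast at hc
    have h7 : ((M' : ℤ) - 3 * (n' : ℤ) ^ 2) * (3 * (M' : ℤ) - (l : ℤ) ^ 2) = 27 * (c : ℤ) ^ 2 := by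
      linarith [hc]
    have hM3' : (M' : ℤ) % 3 = 1 ∨ (M' : ℤ) % 3 = 2 := by exact_mod_cast hM3
    have hcop : IsCoprime (9 : ℤ) ((M' : ℤ) - 3 * (n' : ℤ) ^ 2) := by
      have : IsCoprime (3 : ℤ) ((M' : ℤ) - 3 * (n' : ℤ) ^ 2) := by
        rw [(Int.prime_three).coprime_iff_not_dvd]
        omega
      have h2 := this.pow_left (m := 2)
      norm_num at h2
      exact h2
    have h8 : (9 : ℤ) ∣ ((M' : ℤ) - 3 * (n' : ℤ) ^ 2) * (3 * (M' : ℤ) - (l : ℤ) ^ 2) :=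
      ⟨3 * (c : ℤ) ^ 2, by rw [h7]; ring⟩
    have h9 := hcop.dvd_of_dvd_mul_left h8
    rcases (by omega : l % 3 = 0 ∨ l % 3 = 1 ∨ l % 3 = 2) with h | h | h
    · obtain ⟨l', rfl⟩ := Nat.dvd_of_mod_eq_zero h
      push_cast at h9
      have : ((3 : ℤ) * l') ^ 2 = 9 * (l' : ℤ) ^ 2 := by ring
      omega
    · have : l ^ 2 % 3 = 1 := by simp [Nat.pow_mod, h]
      have : ((l : ℤ) ^ 2) % 3 = 1 := by exact_mod_cast this
      omega
    · have : l ^ 2 % 3 = 1 := by simp [Nat.pow_mod, h]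
      have : ((l : ℤ) ^ 2) % 3 = 1 := by exact_mod_cast this
      omega

/-- all `M = N / 3` outside `1 mod 3` and `0 mod 9`, unless `5 m^2 - 4 n^2` is a square -/
theorem kill_D {N n m M : ℕ} {X : Finset ℕ} (hmn : m < n) (hN : N + m ^ 2 = 4 * n ^ 2)
    (hM : N = 3 * M) (h1 : M % 3 ≠ 1) (h9 : M % 9 ≠ 0)
    (h4 : ∀ l : ℕ, 5 * m ^ 2 ≠ 4 * n ^ 2 + l ^ 2)
    (hnX : n ∈ X) (hX : ∀ j ∈ X, j ≤ n) : Kill N n X := by
  rcases (by omega : M % 3 = 2 ∨ (M % 9 = 3 ∨ M % 9 = 6)) with h | h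
  · exact kill_two hmn hN hM h h4 hnX hX
  · by_cases h3 : 3 ∣ n
    · exact kill_one_b hmn hN hM h h3 h4 hnX hX
    · refine kill_one_a hmn hN hM h ?_ h4 hnX hX
      rcases (by omega : n % 3 = 0 ∨ n % 3 = 1 ∨ n % 3 = 2) with h | h | h
      · omega
      · simp [Nat.pow_mod, h]
      · simp [Nat.pow_mod, h]

theorem kill_60 {X : Finset ℕ} (hnX : 4 ∈ X) (hX : ∀ j ∈ X, j ≤ 4) : Kill 60 4 X := by
  refine kill_D (m := 2) (M := 20) (by norm_num) (by norm_num) (by norm_num) (by norm_num)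
    (by norm_num) ?_ hnX hX
  intro l h
  omega

end Pool.Agent.Helper62.Phi4
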