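import Pool.Agent.Helper62.Phi4.KillD

set_option autoImplicit false

/-! Kill for pairs `(n, m)` with `v_3 (n) ≠ v_3 (m)`. -/

namespace Pool.Agent.Helper62.Phi4

open Real Pool.Agent.Helper35.Phi4

/-- if `y ^ 2 = D (9 ^ v N' - 3 l ^ 2)` with `3 ∤ D`, `3 ∤ N'`, then `3 ^ v ∣ y`, and `y / 3 ^ v` is
not divisible by 3 -/
theorem desc3 (v : ℕ) (D N' : ℤ) (hD : ¬ (3 : ℤ) ∣ D) (hN : ¬ (3 : ℤ) ∣ N') :
    ∀ (y l : ℤ), y ^ 2 = D * (9 ^ v * N' - 3 * l ^ 2) →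
      ∃ y' : ℤ, y = 3 ^ v * y' ∧ ¬ (3 : ℤ) ∣ y' := by
  induction v with
  | zero =>
    intro y l h
    refine ⟨y, by simp, ?_⟩
    rintro ⟨c, rfl⟩
    have h1 : (3 : ℤ) ∣ D * N' := ⟨3 * c ^ 2 + D * l ^ 2, by
      have : (3 * c) ^ 2 = D * (N' - 3 * l ^ 2) := by simpa using h
      linarith⟩
    rcases Int.prime_three.dvd_or_dvd h1 with h2 | h2
    · exact hD h2
    · exact hN h2
  | succ v ih =>
    intro y l h
    have h9 : (9 : ℤ) ^ (v + 1) = 9 * 9 ^ v := by ring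
    rw [h9] at h
    have h3y : (3 : ℤ) ∣ y := by
      have : (3 : ℤ) ∣ y ^ 2 := ⟨D * (3 * 9 ^ v * N' - l ^ 2), by rw [h]; ring⟩
      exact Int.prime_three.dvd_of_dvd_pow this
    obtain ⟨y1, rfl⟩ := h3y
    have h1 : 3 * y1 ^ 2 = D * (3 * 9 ^ v * N' - l ^ 2) := by
      have : 3 * (3 * y1 ^ 2) = 3 * (D * (3 * 9 ^ v * N' - l ^ 2)) := by
        linarith
      linarith
    have h3l : (3 : ℤ) ∣ l := by
      have h2 : (3 : ℤ) ∣ D * l ^ 2 := ⟨D * (9 ^ v * N') - y1 ^ 2, by linarith⟩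
      rcases Int.prime_three.dvd_or_dvd h2 with h4 | h4
      · exact absurd h4 hD
      · exact Int.prime_three.dvd_of_dvd_pow h4
    obtain ⟨l1, rfl⟩ := h3l
    have h5 : y1 ^ 2 = D * (9 ^ v * N' - 3 * l1 ^ 2) := by linarith
    obtain ⟨y', h6, h7⟩ := ih y1 l1 h5
    exact ⟨y', by rw [h6, pow_succ]; ring, h7⟩

theorem kill_v3 {N n m v n1 m1 : ℕ} {X : Finset ℕ} (hmn : m < n) (hN : N + m ^ 2 = 4 * n ^ 2)
    (hn1 : n = 3 ^ v * n1) (hm1 : m = 3 ^ v * m1)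
    (hd : (n1 % 3 = 0 ∧ m1 % 3 ≠ 0) ∨ (n1 % 3 ≠ 0 ∧ m1 % 3 = 0))
    (hnX : n ∈ X) (hX : ∀ j ∈ X, j ≤ n) : Kill N n X := by
  have hm2 : m ^ 2 < n ^ 2 := Nat.pow_lt_pow_left hmn (by norm_num)
  have hn : 3 * n ^ 2 < N := by omega
  set N' : ℤ := 4 * (n1 : ℤ) ^ 2 - (m1 : ℤ) ^ 2 with hN'
  set D : ℤ := (n1 : ℤ) ^ 2 - (m1 : ℤ) ^ 2 with hDdef
  have hsq : ((n1 : ℤ) ^ 2 % 3 = 0 ∧ (m1 : ℤ) ^ 2 % 3 = 1) ∨
      ((n1 : ℤ) ^ 2 % 3 = 1 ∧ (m1 : ℤ) ^ 2 % 3 = 0) := by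
    have aux0 : ∀ a : ℕ, a % 3 = 0 → (a : ℤ) ^ 2 % 3 = 0 := by
      intro a ha
      have : a ^ 2 % 3 = 0 := by simp [Nat.pow_mod, ha]
      exact_mod_cast this
    have aux1 : ∀ a : ℕ, a % 3 ≠ 0 → (a : ℤ) ^ 2 % 3 = 1 := by
      intro a ha
      have : a ^ 2 % 3 = 1 := by
        rcases (by omega : a % 3 = 1 ∨ a % 3 = 2) with h | h <;> simp [Nat.pow_mod, h]
      exact_mod_cast this
    rcases hd with ⟨h1, h2⟩ | ⟨h1, h2⟩
    · exact Or.inl ⟨aux0 _ h1, aux1 _ h2⟩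
    · exact Or.inr ⟨aux1 _ h1, aux0 _ h2⟩
  have hD3 : ¬ (3 : ℤ) ∣ D := by rw [hDdef]; omega
  have hN3 : ¬ (3 : ℤ) ∣ N' := by rw [hN']; omega
  have h9 : (9 : ℤ) ^ v = 3 ^ v * 3 ^ v := by
    rw [← mul_pow]; norm_num
  have hNZ : (N : ℤ) = 9 ^ v * N' := by
    have : (N : ℤ) + (m : ℤ) ^ 2 = 4 * (n : ℤ) ^ 2 := by exact_mod_cast hN
    rw [hn1, hm1] at this
    push_cast at this
    rw [hN', h9]
    linarith
  have haj : ∀ j, j ≤ n → ((aa N j : ℕ) : ℤ) = (N : ℤ) - 3 * (j : ℤ) ^ 2 := by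
    intro j hj
    have h1 : j ^ 2 ≤ n ^ 2 := Nat.pow_le_pow_left hj 2
    have h2 : 3 * j ^ 2 < N := by omega
    have h3 := aa_add h2
    have h4 : ((aa N j + 3 * j ^ 2 : ℕ) : ℤ) = N := by rw [h3]
    push_cast at h4
    linarith
  have han : ((aa N n : ℕ) : ℤ) = 9 ^ v * D := by
    rw [haj n le_rfl, hNZ, hN', hDdef, hn1, h9]
    push_cast
    ring
  have hp3 : (0 : ℤ) < 3 ^ v := by positivity
  have key : ∀ (g l : ℤ), g ^ 2 = (aa N n : ℤ) * ((N : ℤ) - 3 * l ^ 2) →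
      ∃ y' : ℤ, g = 9 ^ v * y' ∧ ¬ (3 : ℤ) ∣ y' := by
    intro g l h
    rw [han, hNZ] at h
    have h1 : (3 : ℤ) ^ v ∣ g := by
      have : ((3 : ℤ) ^ v) ^ 2 ∣ g ^ 2 := by
        rw [h, pow_two, ← h9]
        exact ⟨D * (9 ^ v * N' - 3 * l ^ 2), by ring⟩
      exact (Int.pow_dvd_pow_iff (by norm_num)).1 this
    obtain ⟨y, rfl⟩ := h1
    have h2 : y ^ 2 = D * (9 ^ v * N' - 3 * l ^ 2) := by
      have h3 : (3 ^ v * 3 ^ v) * y ^ 2 = (3 ^ v * 3 ^ v) * (D * (9 ^ v * N' - 3 * l ^ 2)) := by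
        have : (3 ^ v * y) ^ 2 = (3 ^ v * 3 ^ v) * y ^ 2 := by ring
        rw [← this, h, h9]
        ring
      exact mul_left_cancel₀ (by positivity) h3
    obtain ⟨y', h4, h5⟩ := desc3 v D N' hD3 hN3 y l h2
    exact ⟨y', by rw [h4, h9]; ring, h5⟩
  refine kill_class (e := 9 ^ v) (by positivity) hn hN hnX hX ?_ ?_ ?_
  · intro j hj hs
    have hg := gg_sq hs
    have h1 : ((gg N n j : ℕ) : ℤ) ^ 2 = (aa N n : ℤ) * ((N : ℤ) - 3 * (j : ℤ) ^ 2) := by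
      have : ((gg N n j * gg N n j : ℕ) : ℤ) = ((aa N j * aa N n : ℕ) : ℤ) := by rw [hg]
      push_cast at this
      rw [← haj j hj, pow_two, this]
      ring
    obtain ⟨y', h2, h3⟩ := key _ _ h1
    have hy0 : 0 ≤ y' := by
      by_contra hc
      push Not at hc
      have : (9 : ℤ) ^ v * y' < 0 := mul_neg_of_pos_of_neg (by positivity) hc
      have h4 : (0 : ℤ) ≤ (gg N n j : ℕ) := Int.natCast_nonneg _
      omega
    obtain ⟨h, rfl⟩ := Int.eq_ofNat_of_zero_le hy0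
    refine ⟨h, by exact_mod_cast h2, ?_⟩
    intro h5
    apply h3
    exact_mod_cast h5
  · intro c l hc
    obtain ⟨y', h2, h3⟩ := key _ _ hc
    apply h3
    push_cast at h2
    have : (3 : ℤ) * c = y' := mul_left_cancel₀ (by positivity : (9 : ℤ) ^ v ≠ 0) h2
    exact ⟨c, this.symm⟩
  · intro l hl
    have h1 : 5 * (m : ℤ) ^ 2 = 4 * (n : ℤ) ^ 2 + (l : ℤ) ^ 2 := by exact_mod_cast hl
    rw [hn1, hm1] at h1
    push_cast at h1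
    have h2 : (3 : ℤ) ^ v ∣ l := by
      have : ((3 : ℤ) ^ v) ^ 2 ∣ (l : ℤ) ^ 2 :=
        ⟨5 * (m1 : ℤ) ^ 2 - 4 * (n1 : ℤ) ^ 2, by linarith⟩
      exact (Int.pow_dvd_pow_iff (by norm_num)).1 this
    obtain ⟨l1, hl1⟩ := h2
    rw [hl1] at h1
    have h3 : 5 * (m1 : ℤ) ^ 2 = 4 * (n1 : ℤ) ^ 2 + l1 ^ 2 := by
      have h4 : ((3 : ℤ) ^ v * 3 ^ v) * (5 * (m1 : ℤ) ^ 2) =
          ((3 : ℤ) ^ v * 3 ^ v) * (4 * (n1 : ℤ) ^ 2 + l1 ^ 2) := by linarith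
      exact mul_left_cancel₀ (by positivity) h4
    have h5 : l1 ^ 2 % 3 = 0 ∨ l1 ^ 2 % 3 = 1 := by
      rcases (by omega : l1 % 3 = 0 ∨ l1 % 3 = 1 ∨ l1 % 3 = 2) with h | h | h <;>
        simp [pow_two, Int.mul_emod, h]
    omega

/-- pairs with `v_3 (n) ≠ v_3 (m)` are dead -/
theorem kill_val3 {N n m : ℕ} {X : Finset ℕ} (hm : 1 ≤ m) (hmn : m < n)
    (hN : N + m ^ 2 = 4 * n ^ 2) (hv : padicValNat 3 n ≠ padicValNat 3 m)
    (hnX : n ∈ X) (hX : ∀ j ∈ X, j ≤ n) : Kill N n X := by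
  have hn0 : n ≠ 0 := by omega
  have hm0 : m ≠ 0 := by omega
  obtain ⟨a, n', hn', hna⟩ := Nat.exists_eq_pow_mul_and_not_dvd hn0 3 (by norm_num)
  obtain ⟨b, m', hm', hmb⟩ := Nat.exists_eq_pow_mul_and_not_dvd hm0 3 (by norm_num)
  have _ : Fact (Nat.Prime 3) := ⟨Nat.prime_three⟩
  have h1 : padicValNat 3 n = a := by
    rw [hna, padicValNat.mul (by positivity) (by rintro rfl; simp at hn'),
      padicValNat.prime_pow, padicValNat.eq_zero_of_not_dvd hn', add_zero]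
  have h2 : padicValNat 3 m = b := by
    rw [hmb, padicValNat.mul (by positivity) (by rintro rfl; simp at hm'),
      padicValNat.prime_pow, padicValNat.eq_zero_of_not_dvd hm', add_zero]
  rw [h1, h2] at hv
  rcases Nat.lt_or_gt_of_ne hv with h | h
  · -- a < b
    obtain ⟨e, rfl⟩ := Nat.exists_eq_add_of_lt h
    refine kill_v3 (v := a) (n1 := n') (m1 := 3 ^ (e + 1) * m') hmn hN hna ?_ ?_ hnX hX
    · rw [hmb, show a + e + 1 = a + (e + 1) by ring, pow_add]; ring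
    · right
      exact ⟨by omega, Nat.mod_eq_zero_of_dvd ⟨3 ^ e * m', by ring⟩⟩
  · obtain ⟨e, rfl⟩ := Nat.exists_eq_add_of_lt h
    refine kill_v3 (v := b) (n1 := 3 ^ (e + 1) * n') (m1 := m') hmn hN ?_ hmb ?_ hnX hX
    · rw [hna, show b + e + 1 = b + (e + 1) by ring, pow_add]; ring
    · left
      exact ⟨Nat.mod_eq_zero_of_dvd ⟨3 ^ e * n', by ring⟩, by omega⟩

end Pool.Agent.Helper62.Phi4
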