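import Pool.Agent.Helper62.Phi4.KillVal
import Pool.Agent.Helper35.Phi4.Seven

set_option autoImplicit false

/-! Kill for pairs `(n, m)` with `v_2 (m) < v_2 (n)`. -/

namespace Pool.Agent.Helper62.Phi4

open Real Pool.Agent.Helper35.Phi4

/-- pairs with `v_2 (m) < v_2 (n)` are dead -/
theorem kill_val2 {N n m : ℕ} {X : Finset ℕ} (hm : 1 ≤ m) (hmn : m < n)
    (hN : N + m ^ 2 = 4 * n ^ 2) (hv : padicValNat 2 m < padicValNat 2 n)
    (hnX : n ∈ X) (hX : ∀ j ∈ X, j ≤ n) : Kill N n X := by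
  have hn0 : n ≠ 0 := by omega
  have hm0 : m ≠ 0 := by omega
  obtain ⟨a, n', hn', hna⟩ := Nat.exists_eq_pow_mul_and_not_dvd hn0 2 (by norm_num)
  obtain ⟨b, m', hm', hmb⟩ := Nat.exists_eq_pow_mul_and_not_dvd hm0 2 (by norm_num)
  have _ : Fact (Nat.Prime 2) := ⟨Nat.prime_two⟩
  have h1 : padicValNat 2 n = a := by
    rw [hna, padicValNat.mul (by positivity) (by rintro rfl; simp at hn'),
      padicValNat.prime_pow, padicValNat.eq_zero_of_not_dvd hn', add_zero]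
  have h2 : padicValNat 2 m = b := by
    rw [hmb, padicValNat.mul (by positivity) (by rintro rfl; simp at hm'),
      padicValNat.prime_pow, padicValNat.eq_zero_of_not_dvd hm', add_zero]
  rw [h1, h2] at hv
  obtain ⟨e, rfl⟩ := Nat.exists_eq_add_of_lt hv
  -- n = 2^b n1, n1 = 2 (2^e n')
  have hn1 : n = 2 ^ b * (2 * (2 ^ e * n')) := by
    rw [hna, show b + e + 1 = b + (e + 1) by ring, pow_add]; ring
  set k : ℕ := 2 ^ e * n' with hk
  have hb : 0 < 2 ^ b := by positivity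
  have hlt : m' < 2 * k := by
    have : 2 ^ b * m' < 2 ^ b * (2 * k) := by rw [← hmb, ← hn1]; exact hmn
    exact Nat.lt_of_mul_lt_mul_left this
  obtain ⟨N1, hN1⟩ : ∃ N1, N1 + m' ^ 2 = 4 * (2 * k) ^ 2 := by
    have : m' ^ 2 < (2 * k) ^ 2 := Nat.pow_lt_pow_left hlt (by norm_num)
    exact ⟨4 * (2 * k) ^ 2 - m' ^ 2, by omega⟩
  have h7 : N1 % 8 = 7 := by
    obtain ⟨t, ht⟩ : ∃ t, m' ^ 2 = 8 * t + 1 := sqodd m' (by omega)
    have : (2 * k) ^ 2 = 4 * k ^ 2 := by ring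
    omega
  have h4 : (2 ^ b) ^ 2 = 4 ^ b := by rw [← pow_mul, mul_comm, pow_mul]; norm_num
  have hNN : N = 4 ^ b * N1 := by
    have h5 : N + 4 ^ b * m' ^ 2 = 4 ^ b * (4 * (2 * k) ^ 2) := by
      have : N + (2 ^ b * m') ^ 2 = 4 * (2 ^ b * (2 * k)) ^ 2 := by
        rw [← hmb, ← hn1]; exact hN
      rw [mul_pow, mul_pow, h4] at this
      rw [this]; ring
    rw [← hN1, Nat.mul_add] at h5
    omega
  rw [hNN, hn1]
  exact kill_seven b hlt hN1 h7 (by rw [← hn1]; exact hnX) (by rw [← hn1]; exact hX)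

end Pool.Agent.Helper62.Phi4
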